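import Mathlib
import Pool.Agent.Helper495.Thomasse

set_option autoImplicit false
open Classical

namespace Pool.Agent.Results.MP_8665f8_co.Reachable

open Pool.Agent.Helper495.Thom

/-- (1) Every finite oriented graph satisfies the inequality with distance at most two replaced
by finite distance. (2) Every finite oriented graph in which all finite distances are at most two
satisfies Thomassé's inequality. -/
theorem result :
    (∀ (V : Type) [Fintype V] (G : Digraph V),
      (∀ u, ¬ G.Adj u u) →
      (∀ u v, G.Adj u v → ¬ G.Adj v u) →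
      (∑ v : V, |((Finset.univ.filter (fun w => G.Adj v w)).card : ℤ)
                  - ((Finset.univ.filter (fun w => G.Adj w v)).card : ℤ)|)
        + ((Finset.univ.filter (fun p : V × V =>
              p.1 ≠ p.2 ∧ Relation.TransGen G.Adj p.1 p.2)).card : ℤ)
      ≥ 2 * ((Finset.univ.filter (fun p : V × V => G.Adj p.1 p.2)).card : ℤ)
        + ((Finset.univ.filter (fun v =>
              (Finset.univ.filter (fun w => G.Adj w v)).card
                < (Finset.univ.filter (fun w => G.Adj v w)).card)).card : ℤ)) ∧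
    (∀ (V : Type) [Fintype V] (G : Digraph V),
      (∀ u, ¬ G.Adj u u) →
      (∀ u v, G.Adj u v → ¬ G.Adj v u) →
      (∀ u v, u ≠ v → Relation.TransGen G.Adj u v →
        (G.Adj u v ∨ ∃ w, G.Adj u w ∧ G.Adj w v)) →
      (∑ v : V, |((Finset.univ.filter (fun w => G.Adj v w)).card : ℤ)
                  - ((Finset.univ.filter (fun w => G.Adj w v)).card : ℤ)|)
        + ((Finset.univ.filter (fun p : V × V =>
              p.1 ≠ p.2 ∧ (G.Adj p.1 p.2 ∨ ∃ w, G.Adj p.1 w ∧ G.Adj w p.2))).card : ℤ)
      ≥ 2 * ((Finset.univ.filter (fun p : V × V => G.Adj p.1 p.2)).card : ℤ)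
        + ((Finset.univ.filter (fun v =>
              (Finset.univ.filter (fun w => G.Adj w v)).card
                < (Finset.univ.filter (fun w => G.Adj v w)).card)).card : ℤ)) := by
  have part1 : ∀ (V : Type) [Fintype V] (G : Digraph V),
      (∀ u, ¬ G.Adj u u) →
      (∀ u v, G.Adj u v → ¬ G.Adj v u) →
      (∑ v : V, |((Finset.univ.filter (fun w => G.Adj v w)).card : ℤ)
                  - ((Finset.univ.filter (fun w => G.Adj w v)).card : ℤ)|)
        + ((Finset.univ.filter (fun p : V × V =>
              p.1 ≠ p.2 ∧ Relation.TransGen G.Adj p.1 p.2)).card : ℤ)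
      ≥ 2 * ((Finset.univ.filter (fun p : V × V => G.Adj p.1 p.2)).card : ℤ)
        + ((Finset.univ.filter (fun v =>
              (Finset.univ.filter (fun w => G.Adj w v)).card
                < (Finset.univ.filter (fun w => G.Adj v w)).card)).card : ℤ) := by
    intro V _ G h1 h2
    have h3 := preorder_ineq G.Adj (Relation.TransGen G.Adj) h1 h2
      (fun x y h => Relation.TransGen.single h) (fun x y z h h' => h.trans h')
    have h4 := abs_form G.Adj _ h3
    have h5 : (Finset.univ.filter (fun p : V × V =>
        p.1 ≠ p.2 ∧ Relation.TransGen G.Adj p.1 p.2)).card =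
        ∑ v : V, dg (fun v w => v ≠ w ∧ Relation.TransGen G.Adj v w) v := by
      unfold dg
      simp only [Finset.card_filter]
      rw [← Finset.univ_product_univ, Finset.sum_product]
    rw [h5]
    exact h4
  refine ⟨part1, ?_⟩
  intro V _ G h1 h2 h3
  have h4 := part1 V G h1 h2
  have h5 : (Finset.univ.filter (fun p : V × V =>
        p.1 ≠ p.2 ∧ Relation.TransGen G.Adj p.1 p.2)).card ≤
      (Finset.univ.filter (fun p : V × V =>
        p.1 ≠ p.2 ∧ (G.Adj p.1 p.2 ∨ ∃ w, G.Adj p.1 w ∧ G.Adj w p.2))).card := by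
    apply Finset.card_le_card
    intro p hp
    simp only [Finset.mem_filter, Finset.mem_univ, true_and] at hp ⊢
    exact ⟨hp.1, h3 p.1 p.2 hp.1 hp.2⟩
  have h6 : ((Finset.univ.filter (fun p : V × V =>
        p.1 ≠ p.2 ∧ Relation.TransGen G.Adj p.1 p.2)).card : ℤ) ≤
      ((Finset.univ.filter (fun p : V × V =>
        p.1 ≠ p.2 ∧ (G.Adj p.1 p.2 ∨ ∃ w, G.Adj p.1 w ∧ G.Adj w p.2))).card : ℤ) := by
    exact_mod_cast h5
  linarith

end Pool.Agent.Results.MP_8665f8_co.Reachable
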